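import Pool.Agent.Helper24.T8.Spec

/-!
Closed manifolds glued along trees from double branched covers of the complements of crossing
balls of alternating diagrams: the fundamental group is not left-orderable.
-/

set_option autoImplicit false

namespace Pool.Agent.Helper24.T8

open Pool.Agent.Helper42.Th Pool.Agent.Helper31.T3 Pool.Agent.Helper42.T3 Pool.Agent.Helper42.T4
open Pool.Agent.Helper31.OrderAct
open Pool.Agent.Helper71.Rot
open Pool.Agent.Helper71.Tree (FillSpec)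

universe u

section

variable {E : Type} {G : Type u} [Group G] {Γ : CMap E} {L : Lab G Γ} {δ : E} {q p q' p' : ℕ}
  {P : Set E} {F : E → Set G} {F₀ : Set G} {A B C D : ℤ}

lemma pow_le_of {Ω : Type*} [LinearOrder Ω] {u v : Ω ≃o Ω} (hc : ∀ z, u (v z) = v (u z)) {z : Ω}
    (h : u z ≤ v z) (n : ℕ) : (u ^ n) z ≤ (v ^ n) z := by
  induction n with
  | zero => exact le_rfl
  | succ n ih =>
    rw [pow_succ u, pow_succ' v, RelIso.mul_apply, RelIso.mul_apply]
    refine ((u ^ n).monotone h).trans ?_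
    have := comm_pow hc n 1 z
    rw [pow_one] at this
    rw [this]
    exact v.monotone ih

/-- Weakly positive words are positive, or they are on one of the two ends. -/
lemma cases_word (hp : 0 < p) (hp' : 0 < p') (hq : q ≤ p) (hq' : q' ≤ p')
    (hAB : A ≠ 0 ∨ B ≠ 0) (h1 : 0 ≤ A * q + B * p) (h2 : 0 ≤ A * p' + B * q') :
    Cone q p q' p' A B ∨ (0 < A ∧ A * q + B * p = 0) ∨
      (A ≤ 0 ∧ 0 < B ∧ A * p' + B * q' = 0) := by
  have hpz : (0 : ℤ) < p := by exact_mod_cast hp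
  have hpz' : (0 : ℤ) < p' := by exact_mod_cast hp'
  have hqz : (q : ℤ) ≤ p := by exact_mod_cast hq
  have hqz' : (q' : ℤ) ≤ p' := by exact_mod_cast hq'
  have hq0 : (0 : ℤ) ≤ q := Int.natCast_nonneg _
  have hq0' : (0 : ℤ) ≤ q' := Int.natCast_nonneg _
  rcases lt_or_ge 0 A with hA | hA
  · rcases h1.eq_or_lt with h3 | h3
    · exact Or.inr (Or.inl ⟨hA, h3.symm⟩)
    · rcases h2.eq_or_lt with h4 | h4
      · exfalso
        have hB : B < 0 := by
          by_contra hn
          push Not at hn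
          have h5 : 0 < A * p' := mul_pos hA hpz'
          have h6 : 0 ≤ B * q' := mul_nonneg hn hq0'
          omega
        have h7 : A ≤ -B := by
          have h8 : A * p' ≤ -B * p' := by
            have : -B * q' ≤ -B * p' := mul_le_mul_of_nonneg_left hqz' (by omega)
            linarith
          exact le_of_mul_le_mul_right h8 hpz'
        have h9 : A * q ≤ -B * q := mul_le_mul_of_nonneg_right h7 hq0
        have h10 : -B * q ≤ -B * p := mul_le_mul_of_nonneg_left hqz (by omega)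
        linarith
      · exact Or.inl ⟨h3, h4⟩
  · have hB : 0 < B := by
      by_contra hn
      push Not at hn
      rcases hn.eq_or_lt with h3 | h3
      · rw [h3, zero_mul, add_zero] at h2
        have h4 : 0 ≤ A := nonneg_of_mul_nonneg_left h2 hpz'
        rcases hAB with h | h
        · exact h (le_antisymm hA h4)
        · exact h h3
      · have h5 : B * p < 0 := mul_neg_of_neg_of_pos h3 hpz
        have h6 : A * q ≤ 0 := mul_nonpos_of_nonpos_of_nonneg hA hq0
        omega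
    rcases h2.eq_or_lt with h3 | h3
    · exact Or.inr (Or.inr ⟨hA, hB, h3.symm⟩)
    · refine Or.inl ⟨?_, h3⟩
      rcases hA.eq_or_lt with h4 | h4
      · rw [h4, zero_mul, zero_add]
        exact mul_pos hB hpz
      · rcases hq0.eq_or_lt with h5 | h5
        · rw [← h5, mul_zero, zero_add]
          exact mul_pos hB hpz
        · have h6 : -A < B := by
            by_contra hn
            push Not at hn
            have h7 : B * q' ≤ -A * q' := mul_le_mul_of_nonneg_right hn hq0'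
            have h8 : -A * q' ≤ -A * p' := mul_le_mul_of_nonneg_left hqz' (by omega)
            linarith
          have h7 : -A * q < B * q := mul_lt_mul_of_pos_right h6 h5
          have h8 : B * q ≤ B * p := mul_le_mul_of_nonneg_left hqz (by omega)
          linarith

variable [Finite E]

lemma M_fix (h₁ : LowSpec Γ L δ q p) {Ω : Type u} [CompleteLinearOrder Ω]
    {ρ : G →* (Ω ≃o Ω)} (H : HarmAt Γ L δ Ω ρ) {z : Ω} (hD : ρ (L.D δ) z = z) :
    ρ (L.M δ) z = z :=
  (all_fix (P := ∅) (F := fun _ => ∅) h₁ H (fun d hd => absurd hd (Set.notMem_empty d)) hD).1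

lemma D_up (h₁ : LowSpec Γ L δ q p) {Ω : Type u} [CompleteLinearOrder Ω]
    {ρ : G →* (Ω ≃o Ω)} (H : HarmAt Γ L δ Ω ρ) (H' : HarmAt Γ L δ Ωᵒᵈ ((opHom Ω).comp ρ))
    {t : Ω} (ht : ρ (L.M δ) t < t) : t < ρ (L.D δ) t := by
  rcases lt_trichotomy t (ρ (L.D δ) t) with h | h | h
  · exact h
  · exact absurd (M_fix h₁ H h.symm) ht.ne
  · have h1 := wd_nonneg (Ω := Ωᵒᵈ) (ρ := (opHom Ω).comp ρ) h₁ (A := 1) (B := 0) (by norm_num)
      le_rfl (by norm_num) H' (z := OrderDual.toDual t) h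
    rw [wd, zpow_one, zpow_zero, mul_one] at h1
    exact absurd (show t < ρ (L.M δ) t from h1) (not_lt.mpr ht.le)

/-- The element of the negative edge does not move up. -/
theorem root_up (hP : ∀ d, d ≠ δ → d ≠ Γ.flip δ → d ∈ P ∨ Γ.flip d ∈ P)
    (hF : ∀ d ∈ P, ∀ (Ω : Type u) [CompleteLinearOrder Ω] (ρ : G →* (Ω ≃o Ω)),
      FillSpec true (some 0) none (ρ (L.M d)) (ρ (L.D d)) (ρ '' F d))
    (h₁ : LowSpec Γ L δ q p) (h₂ : LowSpec Γ.dual (dual L) δ q' p')
    (hAB : A ≠ 0 ∨ B ≠ 0) (h1 : 0 ≤ A * q + B * p) (h2 : 0 ≤ A * p' + B * q')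
    (hK : Cone q p q' p' C D)
    (hneg : ∀ (Ω : Type u) [CompleteLinearOrder Ω] (ρ : G →* (Ω ≃o Ω)),
      FillSpec false (some 0) none (ρ (wd L δ A B)) (ρ (wd L δ C D)⁻¹) (ρ '' F₀))
    (Ω : Type u) [CompleteLinearOrder Ω] (ρ : G →* (Ω ≃o Ω)) (z : Ω) :
    ¬ z < ρ (L.D δ) z := by
  intro hz
  have H : HarmAt Γ L δ Ω ρ := harm_of_fill L ρ hP fun d hd => hF d hd Ω ρ
  have H' : HarmAt Γ L δ Ωᵒᵈ ((opHom Ω).comp ρ) :=
    harm_of_fill L _ hP fun d hd => hF d hd Ωᵒᵈ _
  -- the word `(A, B)` does not move down where `D` moves up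
  have key : ∀ y, y < ρ (L.D δ) y → y ≤ ρ (wd L δ A B) y := by
    intro y hy
    have h3 := wd_dn h₁ h₂ hK H H' hy
    have h4 : y ≤ ρ (wd L δ C D)⁻¹ y := by
      rw [← (ρ (wd L δ C D)).le_iff_le, ← RelIso.mul_apply, ← map_mul, mul_inv_cancel, map_one]
      exact h3.le
    have hc : ρ (wd L δ A B) * ρ (wd L δ C D)⁻¹ = ρ (wd L δ C D)⁻¹ * ρ (wd L δ A B) := by
      rw [← map_mul, ← map_mul, wd_inv, wd_mul, wd_mul, add_comm A, add_comm B]
    have h5 := ((hneg Ω ρ).bd hc).lower 0 rfl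
    rw [neg_zero, zpow_zero, one_mul] at h5
    exact (h5.up y h4).1
  rcases cases_word h₁.pos h₂.pos h₁.le h₂.le hAB h1 h2 with h | ⟨hA, h⟩ | ⟨hA, hB, h⟩
  · exact absurd (wd_dn h₁ h₂ h H H' hz) (not_lt.mpr (key z hz))
  · -- the lower end
    obtain ⟨y, hy, h3⟩ := h₁.low Ω ρ H z hz
    have hy' := reg_lt hz hy
    have h4 := key y hy'
    have hB : B ≤ 0 := by
      by_contra hn
      push Not at hn
      have h5 : 0 < B * p := mul_pos hn (by exact_mod_cast h₁.pos)
      have h6 : 0 ≤ A * q := mul_nonneg hA.le (Int.natCast_nonneg _)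
      omega
    obtain ⟨B', rfl⟩ : ∃ B' : ℕ, B = -(B' : ℤ) := ⟨B.natAbs, by omega⟩
    lift A to ℕ using hA.le
    have h5 : A * q = B' * p := by
      have : ((A * q : ℕ) : ℤ) = (B' * p : ℕ) := by
        push_cast
        linarith
      exact_mod_cast this
    -- `b ^ A ≤ a ^ B'`
    have h6 : (ρ (L.M δ)⁻¹ ^ A) y ≤ (ρ (L.D δ) ^ B') y := by
      rw [wd, zpow_neg, zpow_natCast, zpow_natCast, inv_pow, inv_inv, map_mul,
        RelIso.mul_apply] at h4
      rw [← map_pow, ← map_pow, inv_pow, ← (ρ (L.M δ ^ A)).le_iff_le, ← RelIso.mul_apply,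
        ← map_mul, mul_inv_cancel, map_one]
      exact h4
    have hcab := fun (m n : ℕ) (z : Ω) => comm_pow (comm_ab L δ ρ) m n z
    have h7 := pow_le_of (fun z => (hcab B' A z).symm) h6 p
    rw [← pow_mul, ← pow_mul, ← h5, Nat.mul_comm A p, Nat.mul_comm A q, pow_mul, pow_mul] at h7
    exact absurd h7 (not_le.mpr (pow_lt_of (hcab q p) h3 (by exact_mod_cast hA)))
  · -- the upper end
    have hM : ρ (L.M δ) z < z := by
      have := wd_nonneg h₁ (A := 1) (B := 0) (by norm_num) le_rfl (by norm_num) H hz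
      rwa [wd, zpow_one, zpow_zero, mul_one] at this
    have hM' : (OrderDual.toDual z) < ((opHom Ω).comp ρ) ((dual L).D δ) (OrderDual.toDual z) :=
      hM
    obtain ⟨y, hy, h3⟩ := h₂.low Ωᵒᵈ ((opHom Ω).comp ρ) (fun z => (H' z).dual) _ hM'
    have hy1 := reg_lt hM' hy
    set t : Ω := OrderDual.ofDual y with ht
    have hy2 : ρ (L.M δ) t < t := hy1
    have hy3 : t < ρ (L.D δ) t := D_up h₁ H H' hy2
    rw [← map_pow, ← map_pow] at h3
    have h4 : ρ ((L.D δ)⁻¹ ^ p') t < ρ (L.M δ ^ q') t := h3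
    have h5 := key t hy3
    obtain ⟨A', rfl⟩ : ∃ A' : ℕ, A = -(A' : ℤ) := ⟨A.natAbs, by omega⟩
    lift B to ℕ using hB.le
    have h6 : A' * p' = B * q' := by
      have : ((A' * p' : ℕ) : ℤ) = (B * q' : ℕ) := by
        push_cast
        linarith
      exact_mod_cast this
    -- `M ^ A' ≤ D ^ (-B)`
    have h7 : (ρ (L.M δ) ^ A') t ≤ (ρ (L.D δ)⁻¹ ^ B) t := by
      rw [wd, zpow_neg, zpow_natCast, zpow_natCast, map_mul, RelIso.mul_apply,
        ← (ρ (L.M δ ^ A')).le_iff_le, ← RelIso.mul_apply, ← map_mul, mul_inv_cancel, map_one] at h5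
      rw [← map_pow, ← map_pow]
      exact h5
    have hcm : ∀ z, ρ (L.M δ) (ρ (L.D δ)⁻¹ z) = ρ (L.D δ)⁻¹ (ρ (L.M δ) z) := by
      intro z
      rw [← RelIso.mul_apply, ← RelIso.mul_apply, ← map_mul, ← map_mul, (comm_MD' L δ).eq]
    have hcab := fun (m n : ℕ) (z : Ω) => comm_pow hcm m n z
    have h8 := pow_le_of (hcab A' B) h7 p'
    rw [← pow_mul, ← pow_mul, h6, Nat.mul_comm B q', Nat.mul_comm B p', pow_mul, pow_mul] at h8
    rw [map_pow, map_pow] at h4
    exact absurd h8 (not_le.mpr (pow_lt_of (fun z => (hcab q' p' z).symm) h4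
      (by exact_mod_cast hB)))

/-- The main theorem. -/
theorem main24 (hP : ∀ d, d ≠ δ → d ≠ Γ.flip δ → d ∈ P ∨ Γ.flip d ∈ P)
    (hpos : ∀ d ∈ P, Fill true (L.M d) (L.D d) (F d))
    (h₁ : Low Γ L δ q p) (h₂ : Low Γ.dual (dual L) δ q' p')
    (hAB : A ≠ 0 ∨ B ≠ 0) (h1 : 0 ≤ A * q + B * p) (h2 : 0 ≤ A * p' + B * q')
    (h3 : 0 < C * q + D * p) (h4 : 0 < C * p' + D * q')
    (hneg : Fill false (L.M δ ^ A * (L.D δ)⁻¹ ^ B) (L.M δ ^ C * (L.D δ)⁻¹ ^ D)⁻¹ F₀)
    (hgen : Subgroup.closure ((L.elts ∪ ⋃ d ∈ P, F d) ∪ F₀) = ⊤) :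
    ¬ (Nontrivial G ∧ ∃ _ : LinearOrder G, ∀ f g h : G, g ≤ h → f * g ≤ f * h) := by
  have hF : ∀ d ∈ P, ∀ (Ω : Type u) [CompleteLinearOrder Ω] (ρ : G →* (Ω ≃o Ω)),
      FillSpec true (some 0) none (ρ (L.M d)) (ρ (L.D d)) (ρ '' F d) := fun d hd =>
    spec_of_fill24 (hpos d hd)
  have hN := spec_of_fill24 hneg
  have l₁ := spec_of_low24 h₁
  have l₂ := spec_of_low24 h₂
  have hup : ∀ (Ω : Type u) [CompleteLinearOrder Ω] (ρ : G →* (Ω ≃o Ω)) (z : Ω),
      ¬ z < ρ (L.D δ) z := root_up hP hF l₁ l₂ hAB h1 h2 ⟨h3, h4⟩ hN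
  -- no element moves up under `D δ`, for any left order
  have noup : ∀ ho : LinearOrder G, (∀ f g h : G, g ≤ h → f * g ≤ f * h) →
      ∀ g : G, L.D δ * g ≤ g := by
    intro ho hmul g
    by_contra hn
    push Not at hn
    have h1 : ∀ u v : G, cutHom hmul u (LowerSet.Iic v) = LowerSet.Iic (u * v) := by
      intro u v
      ext w
      change w ∈ cutHom hmul u (LowerSet.Iic v) ↔ w ∈ LowerSet.Iic (u * v)
      rw [mem_cutHom]
      change u⁻¹ * w ≤ v ↔ w ≤ u * v
      constructor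
      · intro h
        have := hmul u _ _ h
        rwa [mul_inv_cancel_left] at this
      · intro h
        have := hmul u⁻¹ _ _ h
        rwa [inv_mul_cancel_left] at this
    refine hup _ (cutHom hmul) (LowerSet.Iic g) ?_
    rw [h1]
    exact lt_of_le_of_ne (fun w (hw : w ≤ g) => (hw.trans hn.le : w ≤ L.D δ * g))
      fun e => hn.not_ge (e.ge (le_refl (L.D δ * g)))
  rintro ⟨hnt, ⟨ho, hmul⟩⟩
  -- the element `D δ` is trivial
  have hD : L.D δ = 1 := by
    have h1 := noup ho hmul 1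
    have h2 := noup (OrderDual.instLinearOrder G) (fun f g h hgh => hmul f h g hgh) 1
    rw [mul_one] at h1 h2
    exact le_antisymm h1 h2
  have hall : ∀ z : LowerSet G, ∀ g : G, cutHom hmul g z = z := by
    intro z g
    set ρ := cutHom hmul with hρ
    have H : HarmAt Γ L δ _ ρ := harm_of_fill L ρ hP fun d hd => hF d hd _ ρ
    have ha : ρ (L.D δ) z = z := by rw [hD, map_one]; rfl
    obtain ⟨hb, hfix⟩ := all_fix l₁ H (fun d hd => hF d hd _ ρ) ha
    have hw : ∀ X Y : ℤ, ρ (L.M δ ^ X * (L.D δ)⁻¹ ^ Y) z = z := by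
      intro X Y
      have h4 : (ρ (L.D δ)⁻¹ ^ Y) z = z := zpow_fix Y (by
        rw [map_inv]
        exact inv_fix ha)
      have h5 : (ρ (L.M δ) ^ X) z = z := zpow_fix X hb
      rw [map_mul, RelIso.mul_apply, map_zpow, map_zpow, h4, h5]
    have hg : g ∈ Subgroup.closure ((L.elts ∪ ⋃ d ∈ P, F d) ∪ F₀) := by
      rw [hgen]
      trivial
    induction hg using Subgroup.closure_induction with
    | mem y hy =>
      rcases hy with hy | hy
      · exact hfix y hy
      · refine (hN _ ρ).fix z (hw A B) ?_ _ ⟨y, hy, rfl⟩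
        rw [map_inv]
        exact inv_fix (hw C D)
    | one => rw [map_one]; rfl
    | mul a b _ _ ha hb => rw [map_mul, RelIso.mul_apply, hb, ha]
    | inv a _ ha => rw [map_inv]; exact inv_fix ha
  obtain ⟨x, y, hxy⟩ := exists_pair_ne G
  have key : ∀ x y : G, y ≤ x := by
    intro x y
    have h1 := hall (LowerSet.Iic x) (y * x⁻¹)
    have h2 : y ∈ LowerSet.Iic x := by
      rw [← h1, mem_cutHom]
      simp
    exact h2
  exact hxy (le_antisymm (key y x) (key x y))

end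

end Pool.Agent.Helper24.T8
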