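import Mathlib
import Pool.Agent.Helper42.Th.Defs
import Pool.Agent.Helper42.T3.Route
import Pool.Agent.Helper42.T4.Defs

/-!
Manifolds glued along trees from double branched covers of the complements of the crossing balls
of alternating diagrams; the intervals of slopes are bounded by short paths.
-/

set_option autoImplicit false

namespace Pool.Agent.Helper24.T8

open Pool.Agent.Helper42.Th Pool.Agent.Helper42.T3 Pool.Agent.Helper42.T4

/-- The labels of the dual graph: the labels of the vertices and of the faces are exchanged, and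
so are `D` and `M`. -/
def dual {E : Type} {G : Type*} [Group G] {Γ : CMap E} (L : Lab G Γ) : Lab G Γ.dual where
  x := L.y
  y := L.x
  x_rot := L.y_rot
  y_rot d := by
    change L.x (Γ.flip (Γ.flip (Γ.rot d))) = L.x d
    rw [Γ.flip_flip, L.x_rot]
  x_one := L.y_one
  y_one := L.x_one
  comm d := (L.comm d).symm

/-- The darts `p 0`, ..., `p (n - 1)` form a path from the vertex where `δ` starts to the vertex
where it ends, and the `n + 1` vertices of the path are different.  The closed curve which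
consists of the path and of the edge of `δ` has two sides; the faces on the first side are those
with `F`. -/
structure Geo {E : Type} (Γ : CMap E) (δ : E) (n : ℕ) (p : ℕ → E) (F : E → Prop) : Prop where
  pos : 0 < n
  start : Γ.rot.SameCycle δ (p 0)
  next : ∀ i, i + 1 < n → Γ.rot.SameCycle (Γ.flip (p i)) (p (i + 1))
  stop : Γ.rot.SameCycle (Γ.flip (p (n - 1))) (Γ.flip δ)
  simple : ∀ i j, i < j → j < n → ¬ Γ.rot.SameCycle (p i) (p j)
  simple' : ∀ i < n, ¬ Γ.rot.SameCycle (p i) (Γ.flip δ)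
  ne : ∀ i < n, p i ≠ δ
  face : ∀ d, F (Γ.flip (Γ.rot d)) ↔ F d
  side : F δ ∧ ¬ F (Γ.flip δ)
  change : ∀ d, d ≠ δ → d ≠ Γ.flip δ →
    ((F d ↔ F (Γ.flip d)) ↔ ∀ i < n, d ≠ p i ∧ Γ.flip d ≠ p i)

universe u

mutual

/-- `Fill s m a S`: the elements of the set `S` satisfy the relations of the fundamental group
of a manifold which fills a torus with the peripheral elements `m`, `a` and the slopes of which
are at least `0`, and larger than `0` if `s` holds. -/
inductive Fill {G : Type u} [Group G] : Bool → G → G → Set G → Prop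
  /-- A solid torus of slope `c / d`. -/
  | solid (s : Bool) (m a : G) (d c : ℕ) (hd : 0 < d) (hs : s = true → 0 < c)
      (h : m ^ d = a ^ c) : Fill s m a ∅
  /-- The double cover of the complement of the crossing balls of a diagram, all of which but
  the ball of `δ` are filled with positive slopes.  The slopes at `δ` are between `q / p` and
  `p' / q'`, and the words `m` and `a` are positive in this interval. -/
  | glue (s : Bool) (m a : G) {E : Type} [Finite E] (Γ : CMap E) (L : Lab G Γ) (δ : E)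
      (P : Set E) (F : E → Set G) (hP : ∀ d, d ≠ δ → d ≠ Γ.flip δ → d ∈ P ∨ Γ.flip d ∈ P)
      (hF : ∀ d ∈ P, Fill true (L.M d) (L.D d) (F d)) (q p q' p' : ℕ) (h₁ : Low Γ L δ q p)
      (h₂ : Low Γ.dual (dual L) δ q' p') (P₁ Q₁ P₂ Q₂ : ℤ)
      (hP₁ : 0 < P₁ * q + Q₁ * p) (hQ₁ : 0 < P₁ * p' + Q₁ * q')
      (hP₂ : 0 < P₂ * q + Q₂ * p) (hQ₂ : 0 < P₂ * p' + Q₂ * q')
      (hm : m = L.M δ ^ P₁ * (L.D δ)⁻¹ ^ Q₁) (ha : a = L.M δ ^ P₂ * (L.D δ)⁻¹ ^ Q₂) :
      Fill s m a (L.elts ∪ ⋃ d ∈ P, F d)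

/-- `Low Γ L δ q p`: the slopes at `δ` are at least `q / p`, because `q = 0`, or because the ends
of `δ` are joined by short paths. -/
inductive Low {G : Type u} [Group G] : {E : Type} → (Γ : CMap E) → Lab G Γ → E → ℕ → ℕ → Prop
  /-- The edge is neither a loop nor a bridge. -/
  | zero {E : Type} (Γ : CMap E) (L : Lab G Γ) (δ : E)
      (hl : ∀ i : ℕ, (Γ.rot ^ i) δ ≠ Γ.flip δ) (hb : ∀ i : ℕ, (Γ.dual.rot ^ i) δ ≠ Γ.flip δ) :
      Low Γ L δ 0 1
  /-- The ends of `δ` are joined by paths side by side of length at most `n i`, such that the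
  paths and an edge of slope `-q / p` give a group which is not left-orderable.  An edge the
  slope of which is at least `1 / ℓ` counts `ℓ`. -/
  | short {E : Type} (Γ : CMap E) (L : Lab G Γ) (δ : E) (q p : ℕ) (hq : 0 < q) (hpq : q ≤ p)
      {j : ℕ} (n len : Fin j → ℕ) (w : Fin j → ℕ → E) (A : Fin j → E → Prop)
      (hg : ∀ i, Geo Γ δ (len i) (w i) (A i))
      (ha : ∀ i i', i ≠ i' → Apart Γ (len i) (len i') (w i) (w i') (A i) (A i'))
      (ℓ : Fin j → ℕ → ℕ) (R : Fin j → ℕ → Set G) (hℓ : ∀ i, ∀ t < len i, 0 < ℓ i t)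
      (hr : ∀ i, ∀ t < len i,
        Fill false (L.M (w i t) ^ ℓ i t * (L.D (w i t))⁻¹) (L.D (w i t)) (R i t))
      (hn : ∀ i, ∑ t ∈ Finset.range (len i), ℓ i t ≤ n i)
      (h1 : (q : ℚ) / p ≤ ∑ i, 1 / (n i : ℚ))
      (hX : (q : ℚ) / p < ∑ i, 1 / (n i : ℚ) ∨ Extra Γ δ w) (h2 : ¬ Realizable ((q : ℚ) / p) n) :
      Low Γ L δ q p

end

end Pool.Agent.Helper24.T8
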