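import Pool.Agent.Helper42.T4.Main

/-!
Short paths side by side in labelled graphs with one negative edge: the theorem for systems of
labels.
-/

set_option autoImplicit false

namespace Pool.Agent.Helper24.T8

open Pool.Agent.Helper42.Th Pool.Agent.Helper31.T3 Pool.Agent.Helper42.T3 Pool.Agent.Helper42.T4

section

variable {E : Type} {Ω : Type*} [LinearOrder Ω] {Γ : CMap E} {δ : E}

/-- A path from the start of `δ` to its end, of length at most `N`. -/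
structure Way (Γ : CMap E) (δ : E) (X Y : E → Ω ≃o Ω) (N n : ℕ) (p : ℕ → E) (F : E → Prop) :
    Prop where
  arc : Arc Γ δ n p
  side : Side Γ δ n p {d | F d}
  len : ∃ ℓ : ℕ → ℕ, (∀ i < n, 0 < ℓ i ∧ Slope Γ X Y (p i) (ℓ i)) ∧
    ∑ i ∈ Finset.range n, ℓ i ≤ N

variable {X Y : E → Ω ≃o Ω} {a b : Ω ≃o Ω} {k N n M m : ℕ} {p q : ℕ → E} {F F' : E → Prop}
  {z₀ : Ω}

lemma Way.mono (h : Way Γ δ X Y N n p F) (hN : N ≤ M) : Way Γ δ X Y M n p F := by
  obtain ⟨ℓ, h1, h2⟩ := h.len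
  exact ⟨h.arc, h.side, ℓ, h1, h2.trans hN⟩

lemma bJ_pow24 (S : Sys Γ δ X Y a b k) (h0 : z₀ < a z₀) (n : ℕ)
    (z : {z // Reg a z₀ z}) : ((bJ S h0 ^ n) z).1 = (b ^ n) z.1 := by
  induction n generalizing z with
  | zero => rfl
  | succ n ih =>
    rw [pow_succ, pow_succ, RelIso.mul_apply, RelIso.mul_apply, ih]
    rfl

lemma aJ_pow24 (h0 : z₀ < a z₀) (n : ℕ) (z : {z // Reg a z₀ z}) :
    ((aJ h0 ^ n) z).1 = (a ^ n) z.1 := by
  induction n generalizing z with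
  | zero => rfl
  | succ n ih =>
    rw [pow_succ, pow_succ, RelIso.mul_apply, RelIso.mul_apply, ih]
    rfl

variable [Finite E]

/-- The path on the interval. -/
noncomputable def wt (S : Sys Γ δ X Y a b k) (h0 : z₀ < a z₀)
    (h : Way Γ δ X Y N n p F) (M : ℕ) (hM : N ≤ M) : FPth (aJ h0) (bJ S h0) M (fun _ => 1) :=
  unit (toF S h0 h.arc h.len.choose h.len.choose_spec.1) M (by
      refine le_trans ?_ (h.len.choose_spec.2.trans hM)
      refine le_of_eq (Finset.sum_congr rfl fun i hi => ?_)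
      change (if i + 1 - 1 < n then h.len.choose (i + 1 - 1) else 1) = h.len.choose i
      rw [Nat.add_sub_cancel, if_pos (Finset.mem_range.mp hi)])

lemma wt_left (S : Sys Γ δ X Y a b k) (h0 : z₀ < a z₀)
    (hp : Way Γ δ X Y N n p F) (hq : Way Γ δ X Y M m q F') (D : Disj Γ n p m q)
    (hs : ∀ d, F' d → F d) (N' M' : ℕ) (hN : N ≤ N') (hM : M ≤ M') :
    (wt S h0 hp N' hN).Left (wt S h0 hq M' hM) :=
  left_unit (toF_left S h0 hp.arc hq.arc D hp.side hq.side hs _ _ _ _) _ _ _ _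

/-- Three paths side by side. -/
def Tri24 (Γ : CMap E) (δ : E) (X Y : E → Ω ≃o Ω) (A B C : ℕ) : Prop :=
  ∃ (l n m : ℕ) (o p q : ℕ → E) (F F' F'' : E → Prop), Way Γ δ X Y A l o F ∧
    Way Γ δ X Y B n p F' ∧ Way Γ δ X Y C m q F'' ∧
    Apart Γ l n o p F F' ∧ Apart Γ l m o q F F'' ∧ Apart Γ n m p q F' F''

section extra

omit [Finite E] in
/-- The faces at the start of `δ` before the first edge of the path. -/
lemma face_before24 (h : Way Γ δ X Y N n p F) {i : ℕ} (hi : (Γ.rot ^ i) δ = p 0)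
    (hmin : ∀ m, m < i → (Γ.rot ^ m) δ ≠ p 0) (hne : ∀ m, 0 < m → m ≤ i → (Γ.rot ^ m) δ ≠ δ)
    (hi0 : 0 < i) : (∀ m, m < i → F ((Γ.rot ^ m) δ)) ∧ ¬ F (p 0) := by
  have hf : ∀ d, F (Γ.flip (Γ.rot d)) ↔ F d := h.side.face
  have hcyc : ∀ m : ℕ, Γ.rot.SameCycle δ ((Γ.rot ^ m) δ) := fun m => ⟨(m : ℤ), by simp⟩
  have key : ∀ m, m < i → F ((Γ.rot ^ m) δ) := by
    intro m
    induction m with
    | zero => intro _; exact h.side.mem
    | succ m ih =>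
      intro hm
      have h1 := ih (by omega)
      have h2 : F (Γ.flip ((Γ.rot ^ (m + 1)) δ)) := by
        rw [pow_succ', Equiv.Perm.mul_apply, hf]
        exact h1
      have hd : (Γ.rot ^ (m + 1)) δ ≠ δ := hne _ (by omega) hm.le
      have hf' : (Γ.rot ^ (m + 1)) δ ≠ Γ.flip δ := by
        intro h3
        apply h.arc.end_ 0 h.arc.pos
        have h4 := hcyc (m + 1)
        rw [h3] at h4
        exact h4.symm.trans h.arc.start
      refine ((h.side.iff _ hd hf').mpr fun l hl => ⟨fun h3 => ?_, fun h3 => ?_⟩).mpr h2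
      · rcases Nat.eq_zero_or_pos l with rfl | hl0
        · exact hmin _ hm h3.symm
        · apply h.arc.inj 0 l hl0 hl
          have h4 := hcyc (m + 1)
          rw [← h3] at h4
          exact h.arc.start.symm.trans h4
      · -- the edge ends at the start of `δ`
        have h4 : Γ.flip (p l) = (Γ.rot ^ (m + 1)) δ := by rw [h3, Γ.flip_flip]
        have h5 : Γ.rot.SameCycle (p 0) (Γ.flip (p l)) := by
          rw [h4]
          exact h.arc.start.symm.trans (hcyc _)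
        rcases Nat.lt_or_ge (l + 1) n with h6 | h6
        · exact h.arc.inj 0 (l + 1) (by omega) h6 (h5.trans (h.arc.step l h6))
        · obtain rfl : l = n - 1 := by omega
          exact h.arc.end_ 0 h.arc.pos (h5.trans h.arc.last).symm
  refine ⟨key, fun h1 => ?_⟩
  have h2 : F (Γ.flip (p 0)) := by
    obtain ⟨l, rfl⟩ : ∃ l, i = l + 1 := ⟨i - 1, by omega⟩
    rw [← hi, pow_succ', Equiv.Perm.mul_apply, hf]
    exact key l (by omega)
  have h3 := (h.side.iff (p 0) (h.arc.ne 0 h.arc.pos) (h.arc.ne_flip h.arc.pos)).mp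
    ⟨fun _ => h2, fun _ => h1⟩
  exact (h3 0 h.arc.pos).1 rfl

omit [Finite E] in
/-- The order of the first edges. -/
lemma idx_lt24 (hp : Way Γ δ X Y N n p F) (hq : Way Γ δ X Y M m q F') (hne : p 0 ≠ q 0)
    (hs : ∀ d, F' d → F d) {i j : ℕ} (hi0 : 0 < i) (hi : (Γ.rot ^ i) δ = q 0)
    (hi' : ∀ m, m < i → (Γ.rot ^ m) δ ≠ q 0) (hi'' : ∀ m, 0 < m → m ≤ i → (Γ.rot ^ m) δ ≠ δ)
    (hj0 : 0 < j) (hj : (Γ.rot ^ j) δ = p 0) (hj' : ∀ m, m < j → (Γ.rot ^ m) δ ≠ p 0)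
    (hj'' : ∀ m, 0 < m → m ≤ j → (Γ.rot ^ m) δ ≠ δ) : i < j := by
  by_contra hn
  push Not at hn
  rcases Nat.lt_or_ge j i with h1 | h1
  · apply (face_before24 hp hj hj' hj'' hj0).2
    apply hs
    rw [← hj]
    exact (face_before24 hq hi hi' hi'' hi0).1 j h1
  · obtain rfl : i = j := by omega
    exact hne (hj.symm.trans hi)

variable (S : Sys Γ δ X Y a b k)
include S

lemma away_eq24 {d e : E} (h : Γ.Away δ d e) {z : Ω} (hz : z ≤ a z) :
    X d z = X δ z → X e z = X δ z ∨ X (Γ.flip δ) z = X δ z := by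
  induction h with
  | refl d => intro h; exact Or.inl h
  | rot d e _ ih =>
    intro h
    apply ih
    rw [← h]
    exact (S.harm z).f_rot d
  | pass d e hd _ ih =>
    intro h
    by_cases hend : X (Γ.flip δ) z = X δ z
    · exact Or.inr hend
    · apply ih
      have hsp := (S.harm z).spread
        {c | X c z = X δ z ∧ ∀ m : ℕ, (Γ.rot ^ m) δ ≠ c} ?_ ?_ ?_ d ⟨h, hd⟩
      · exact hsp.trans h
      · intro c
        constructor
        · rintro ⟨h1, h2⟩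
          refine ⟨((S.harm z).f_rot c).symm.trans h1, fun m hm => h2 (m + 1) ?_⟩
          rw [pow_succ', Equiv.Perm.mul_apply, hm]
        · rintro ⟨h1, h2⟩
          refine ⟨((S.harm z).f_rot c).trans h1, fun m hm => ?_⟩
          rcases Nat.eq_zero_or_pos m with rfl | hpos
          · have h3 : 0 < orderOf Γ.rot := orderOf_pos _
            apply h2 (orderOf Γ.rot - 1)
            apply Γ.rot.injective
            rw [← hm, ← Equiv.Perm.mul_apply, ← pow_succ',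
              show orderOf Γ.rot - 1 + 1 = orderOf Γ.rot by omega, pow_orderOf_eq_one]
            rfl
          · apply h2 (m - 1)
            apply Γ.rot.injective
            rw [← hm, ← Equiv.Perm.mul_apply, ← pow_succ', show m - 1 + 1 = m by omega]
      · rintro c ⟨h1, h2⟩
        constructor
        · rintro rfl
          exact h2 0 rfl
        · rintro rfl
          exact hend h1
      · rintro c ⟨h1, -⟩
        rw [h1]
        exact (S.ext hz _).2.1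

/-- A further edge which fixes a point. -/
theorem third_fix24 {m : ℕ} (hne : (Γ.rot ^ m) δ ≠ δ)
    (haw : Γ.Away δ (Γ.flip ((Γ.rot ^ m) δ)) (Γ.flip δ)) {z w : Ω} (hz : z ≤ a z)
    (hw1 : z ≤ w) (hw2 : w ≤ b z) (hw3 : Sys.N Γ Y ((Γ.rot ^ m) δ) w = w) : a z = z := by
  have rw' : w ≤ a w := S.reg_of hz hw1 hw2
  have h2 : X (Γ.flip ((Γ.rot ^ m) δ)) w = X δ w ∨ X (Γ.flip δ) w = X δ w := by
    by_cases h5 : (Γ.rot ^ m) δ = Γ.flip δ
    · right
      rw [← h5]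
      exact S.X_rot w δ m
    · left
      have h3 := (S.harm w).str _ hne h5 (by
        rw [← Sys.Y_N (Γ := Γ) ((Γ.rot ^ m) δ) w, hw3])
      exact h3.trans (S.X_rot w δ m)
  have h4 : X (Γ.flip δ) w = X δ w := by
    rcases h2 with h2 | h2
    · rcases away_eq24 S haw rw' h2 with h | h <;> exact h
    · exact h2
  have h5 : a w = w := by
    apply (X (Γ.flip δ)).injective
    rw [S.ha, h4]
  have h6 : a z ≤ w := by
    rw [← h5]
    exact a.monotone hw1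
  have h7 : w = a z := le_antisymm (hw2.trans (S.b_le_a hz)) h6
  have h8 : a (a z) = a z := by rw [← h7, h5]
  exact a.injective h8

variable (h0 : z₀ < a z₀)
include h0

/-- The first edge of a path. -/
lemma first_val24 (h : Way Γ δ X Y N n p F) (M : ℕ) (hM : N ≤ M) (z : {z // Reg a z₀ z}) {i : ℕ}
    (hi0 : 0 < i) (hi : (Γ.rot ^ i) δ = p 0) (hi'' : ∀ m, 0 < m → m ≤ i → (Γ.rot ^ m) δ ≠ δ) :
    ((wt S h0 h M hM).F 1 z).1 = Sys.N Γ Y ((Γ.rot ^ i) δ) z.1 := by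
  have h1 : (wt S h0 h M hM).F 1 = flo S h0 (p 0) := rfl
  rw [h1, flo, Pool.Agent.Helper31.T3.posIso_apply, hi, ← N_eq S h0 (p 0) z]
  have h2 := S.first_ge (reg_lt h0 z.2).le hi0 hi''
  rw [hi, ← N_eq S h0 (p 0) z] at h2
  have h3 : z ≤ ((fac S h0 (Γ.flip (p 0)))⁻¹ * fac S h0 (p 0)) z := h2
  rw [max_eq_right h3]

/-- One path of length `n`, and a further edge. -/
theorem one_extra24 {e : E} (hp : Way Γ δ X Y N n p F) (hN : ∀ z, (bJ S h0 ^ N) z ≤ aJ h0 z)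
    (he : Γ.rot.SameCycle δ e) (he1 : e ≠ δ) (he2 : e ≠ p 0)
    (haw : Γ.Away δ (Γ.flip e) (Γ.flip δ)) : False := by
  obtain ⟨i, hi0, hi2, hi1, hi3⟩ := exists_idx hp.arc.start (hp.arc.ne 0 hp.arc.pos)
  obtain ⟨l, hl0, hl2, hl1, hl3⟩ := exists_idx he he1
  set z : {z // Reg a z₀ z} := ⟨z₀, reg_self a z₀⟩ with hz
  set P := wt S h0 hp N le_rfl with hP
  obtain ⟨c, hc⟩ : ∃ c, N = c + 1 := ⟨N - 1, by have := P.pos; omega⟩
  have h1 : aJ h0 z ≤ (bJ S h0 ^ c) (P.F 1 z) := by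
    have h2 := P.step 0 z P.pos
    rw [P.top, pow_one] at h2
    exact h2.trans (h_le P c 1 (by omega) _)
  have h2 : (bJ S h0 ^ c) (bJ S h0 z) ≤ (bJ S h0 ^ c) (P.F 1 z) := by
    refine le_trans (le_of_eq ?_) ((hN z).trans h1)
    rw [hc, bsucc]
  have h3 : P.F 1 z = bJ S h0 z :=
    le_antisymm (P.F_le _ _) ((bJ S h0 ^ c).le_iff_le.mp h2)
  have h4 : Sys.N Γ Y ((Γ.rot ^ i) δ) z₀ = b z₀ := by
    rw [← first_val24 S h0 hp N le_rfl z hi0 hi1 hi2, ← hP, h3]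
    rfl
  have hli : l ≠ i := by
    rintro rfl
    exact he2 (hl1.symm.trans hi1)
  obtain ⟨w, hw1, hw2, hw3⟩ := S.second h0.le hi0 hl0 hli
    (fun m h1 h2 => h2.elim (hi2 m h1) (hl2 m h1)) h4
  have h5 := third_fix24 S (hl2 l hl0 le_rfl) (by rw [hl1]; exact haw) h0.le hw1 hw2 hw3
  exact h0.ne' h5

/-- Two paths of length `2`, and a further edge. -/
theorem two_extra_aux24 {o : ℕ → E} {e : E} (hk : ∀ z, bJ S h0 z ≤ aJ h0 z)
    (hp : Way Γ δ X Y 2 n p F) (ho : Way Γ δ X Y 2 m o F') (hop : Apart Γ n m p o F F')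
    (hs : ∀ d, F' d → F d) (he : Γ.rot.SameCycle δ e) (he1 : e ≠ δ) (he2 : e ≠ p 0)
    (he3 : e ≠ o 0) (haw : Γ.Away δ (Γ.flip e) (Γ.flip δ)) : False := by
  obtain ⟨i, hi0, hi2, hi1, hi3⟩ := exists_idx ho.arc.start (ho.arc.ne 0 ho.arc.pos)
  obtain ⟨j, hj0, hj2, hj1, hj3⟩ := exists_idx hp.arc.start (hp.arc.ne 0 hp.arc.pos)
  obtain ⟨l, hl0, hl2, hl1, hl3⟩ := exists_idx he he1
  have hij := idx_lt24 hp ho hop.1 hs hi0 hi1 hi3 hi2 hj0 hj1 hj3 hj2
  set z : {z // Reg a z₀ z} := ⟨z₀, reg_self a z₀⟩ with hz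
  set P := wt S h0 hp 2 le_rfl with hP
  set Q := wt S h0 ho 2 le_rfl with hQ
  have hl : P.Left Q := wt_left S h0 hp ho (disj_of_apart hop) hs _ _ _ _
  have e2 : ∀ t, P.F 2 t ≤ Q.F 1 t := fun t =>
    (Q.F 2).le_iff_le.mp ((bot2 hl t).trans ((hk t).trans (two_le Q t)))
  have h3 : Q.F 1 (P.F 1 z) = bJ S h0 z :=
    le_antisymm (top2 hl z) ((hk z).trans ((two_le P z).trans (e2 _)))
  have h4 : Sys.N Γ Y ((Γ.rot ^ i) δ) (Sys.N Γ Y ((Γ.rot ^ j) δ) z₀) = b z₀ := by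
    rw [← first_val24 S h0 hp 2 le_rfl z hj0 hj1 hj2, ← first_val24 S h0 ho 2 le_rfl _ hi0 hi1 hi2,
      ← hP, ← hQ, h3]
    rfl
  have hli : l ≠ i := by
    rintro rfl
    exact he3 (hl1.symm.trans hi1)
  have hlj : l ≠ j := by
    rintro rfl
    exact he2 (hl1.symm.trans hj1)
  obtain ⟨w, hw1, hw2, hw3⟩ := S.third h0.le hi0 hij hl0 hli hlj
    (fun m h1 h2 => h2.elim (hj2 m h1) (hl2 m h1)) h4
  have h5 := third_fix24 S (hl2 l hl0 le_rfl) (by rw [hl1]; exact haw) h0.le hw1 hw2 hw3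
  exact h0.ne' h5

/-- Two paths of length `2`, and a further edge. -/
theorem two_extra24 {o : ℕ → E} {e : E} (hk : ∀ z, bJ S h0 z ≤ aJ h0 z)
    (hp : Way Γ δ X Y 2 n p F) (ho : Way Γ δ X Y 2 m o F') (hop : Apart Γ n m p o F F')
    (he : Γ.rot.SameCycle δ e) (he1 : e ≠ δ) (he2 : e ≠ p 0) (he3 : e ≠ o 0)
    (haw : Γ.Away δ (Γ.flip e) (Γ.flip δ)) : False := by
  rcases hop.2.2 with hs | hs
  · exact two_extra_aux24 S h0 hk ho hp hop.symm hs he he1 he3 he2 haw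
  · exact two_extra_aux24 S h0 hk hp ho hop hs he he1 he2 he3 haw

end extra

variable (S : Sys Γ δ X Y a b k) (h0 : z₀ < a z₀)
include S h0

lemma left_or24 (hp : Way Γ δ X Y N n p F) (hq : Way Γ δ X Y M m q F')
    (h : Apart Γ n m p q F F') (N' M' : ℕ) (hN : N ≤ N') (hM : M ≤ M') :
    (wt S h0 hp N' hN).Left (wt S h0 hq M' hM) ∨ (wt S h0 hq M' hM).Left (wt S h0 hp N' hN) := by
  have D := disj_of_apart h
  rcases h.2.2 with s | s
  · exact Or.inr (wt_left S h0 hq hp D.symm s _ _ _ _)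
  · exact Or.inl (wt_left S h0 hp hq D s _ _ _ _)

omit [Finite E] in
lemma pow_le_a24 (z : {z // Reg a z₀ z}) : (bJ S h0 ^ k) z ≤ aJ h0 z := by
  change ((bJ S h0 ^ k) z).1 ≤ a z.1
  rw [bJ_pow24]
  exact S.up _ (S.b_ge (reg_lt h0 z.2).le)

/-- A path of length at most `k`, and another path. -/
lemma one_not24 (hp : Way Γ δ X Y k n p F) (hq : Way Γ δ X Y M m q F')
    (h : Apart Γ n m p q F F') : False :=
  one_false (pow_le_a24 S h0) (wt S h0 hp k le_rfl) (wt S h0 hq M le_rfl)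
    (left_or24 S h0 hp hq h _ _ _ _) ⟨z₀, reg_self a z₀⟩

omit S h0 in
/-- Paths of the lengths two, three and five. -/
theorem not_up24 (S : Sys Γ δ X Y a b 1) (h0 : z₀ < a z₀) (h : Tri24 Γ δ X Y 2 3 5) : False := by
  have z : {z // Reg a z₀ z} := ⟨z₀, reg_self a z₀⟩
  obtain ⟨l, n, m, o, p, q, F, F', F'', ho, hp, hq, hop, hoq, hpq⟩ := h
  have hk : ∀ z, bJ S h0 z ≤ aJ h0 z := fun z => S.b_le_a (reg_lt h0 z.2).le
  have D1 := disj_of_apart hop
  have D2 := disj_of_apart hoq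
  have D3 := disj_of_apart hpq
  refine three hk (wt S h0 ho 2 le_rfl) (wt S h0 hp 3 le_rfl) (wt S h0 hq 5 le_rfl) z ?_
  rcases hop.2.2 with s1 | s1 <;> rcases hoq.2.2 with s2 | s2 <;> rcases hpq.2.2 with s3 | s3
  · exact Or.inr (Or.inr (Or.inr (Or.inl ⟨wt_left S h0 hq hp D3.symm s3 _ _ _ _,
      wt_left S h0 hp ho D1.symm s1 _ _ _ _, wt_left S h0 hq ho D2.symm s2 _ _ _ _⟩)))
  · exact Or.inr (Or.inr (Or.inr (Or.inr (Or.inr ⟨wt_left S h0 hp hq D3 s3 _ _ _ _,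
      wt_left S h0 hq ho D2.symm s2 _ _ _ _, wt_left S h0 hp ho D1.symm s1 _ _ _ _⟩))))
  · exact Or.inr (Or.inl ⟨wt_left S h0 hp ho D1.symm s1 _ _ _ _,
      wt_left S h0 ho hq D2 s2 _ _ _ _, wt_left S h0 hp hq D3 (fun d h => s1 d (s2 d h)) _ _ _ _⟩)
  · exact Or.inr (Or.inl ⟨wt_left S h0 hp ho D1.symm s1 _ _ _ _,
      wt_left S h0 ho hq D2 s2 _ _ _ _, wt_left S h0 hp hq D3 s3 _ _ _ _⟩)
  · exact Or.inr (Or.inr (Or.inr (Or.inr (Or.inl ⟨wt_left S h0 hq ho D2.symm s2 _ _ _ _,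
      wt_left S h0 ho hp D1 s1 _ _ _ _, wt_left S h0 hq hp D3.symm s3 _ _ _ _⟩))))
  · exact Or.inr (Or.inr (Or.inr (Or.inr (Or.inl ⟨wt_left S h0 hq ho D2.symm s2 _ _ _ _,
      wt_left S h0 ho hp D1 s1 _ _ _ _,
      wt_left S h0 hq hp D3.symm (fun d h => s2 d (s1 d h)) _ _ _ _⟩))))
  · exact Or.inr (Or.inr (Or.inl ⟨wt_left S h0 ho hq D2 s2 _ _ _ _,
      wt_left S h0 hq hp D3.symm s3 _ _ _ _, wt_left S h0 ho hp D1 s1 _ _ _ _⟩))
  · exact Or.inl ⟨wt_left S h0 ho hp D1 s1 _ _ _ _, wt_left S h0 hp hq D3 s3 _ _ _ _,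
      wt_left S h0 ho hq D2 s2 _ _ _ _⟩

omit S h0 in
/-- Two paths of length two, and a third path. -/
lemma two_two24 (S : Sys Γ δ X Y a b 1) (h0 : z₀ < a z₀) {C : ℕ}
    (h : Tri24 Γ δ X Y 2 2 C) : False := by
  obtain ⟨l, n, m, o, p, q, F, F', F'', ho, hp, hq, hop, hoq, hpq⟩ := h
  have hk : ∀ z, bJ S h0 z ≤ aJ h0 z := fun z => S.b_le_a (reg_lt h0 z.2).le
  have z : {z // Reg a z₀ z} := ⟨z₀, reg_self a z₀⟩
  have D1 := disj_of_apart hop
  have D2 := disj_of_apart hoq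
  have D3 := disj_of_apart hpq
  rcases hop.2.2 with s1 | s1 <;> rcases hoq.2.2 with s2 | s2 <;> rcases hpq.2.2 with s3 | s3
  · exact two_false hk (P := wt S h0 hp 2 le_rfl) (Q := wt S h0 ho 2 le_rfl)
      (R := wt S h0 hq C le_rfl) (wt_left S h0 hp ho D1.symm s1 _ _ _ _)
      (Or.inl ⟨wt_left S h0 hq hp D3.symm s3 _ _ _ _, wt_left S h0 hq ho D2.symm s2 _ _ _ _⟩) z
  · exact two_false hk (P := wt S h0 hp 2 le_rfl) (Q := wt S h0 ho 2 le_rfl)
      (R := wt S h0 hq C le_rfl) (wt_left S h0 hp ho D1.symm s1 _ _ _ _)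
      (Or.inr (Or.inl ⟨wt_left S h0 hp hq D3 s3 _ _ _ _,
        wt_left S h0 hq ho D2.symm s2 _ _ _ _⟩)) z
  · exact two_false hk (P := wt S h0 hp 2 le_rfl) (Q := wt S h0 ho 2 le_rfl)
      (R := wt S h0 hq C le_rfl) (wt_left S h0 hp ho D1.symm s1 _ _ _ _)
      (Or.inr (Or.inr ⟨wt_left S h0 hp hq D3 (fun d h => s1 d (s2 d h)) _ _ _ _,
        wt_left S h0 ho hq D2 s2 _ _ _ _⟩)) z
  · exact two_false hk (P := wt S h0 hp 2 le_rfl) (Q := wt S h0 ho 2 le_rfl)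
      (R := wt S h0 hq C le_rfl) (wt_left S h0 hp ho D1.symm s1 _ _ _ _)
      (Or.inr (Or.inr ⟨wt_left S h0 hp hq D3 s3 _ _ _ _,
        wt_left S h0 ho hq D2 s2 _ _ _ _⟩)) z
  · exact two_false hk (P := wt S h0 ho 2 le_rfl) (Q := wt S h0 hp 2 le_rfl)
      (R := wt S h0 hq C le_rfl) (wt_left S h0 ho hp D1 s1 _ _ _ _)
      (Or.inl ⟨wt_left S h0 hq ho D2.symm s2 _ _ _ _, wt_left S h0 hq hp D3.symm s3 _ _ _ _⟩) z
  · exact two_false hk (P := wt S h0 ho 2 le_rfl) (Q := wt S h0 hp 2 le_rfl)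
      (R := wt S h0 hq C le_rfl) (wt_left S h0 ho hp D1 s1 _ _ _ _)
      (Or.inl ⟨wt_left S h0 hq ho D2.symm s2 _ _ _ _,
        wt_left S h0 hq hp D3.symm (fun d h => s2 d (s1 d h)) _ _ _ _⟩) z
  · exact two_false hk (P := wt S h0 ho 2 le_rfl) (Q := wt S h0 hp 2 le_rfl)
      (R := wt S h0 hq C le_rfl) (wt_left S h0 ho hp D1 s1 _ _ _ _)
      (Or.inr (Or.inl ⟨wt_left S h0 ho hq D2 s2 _ _ _ _,
        wt_left S h0 hq hp D3.symm s3 _ _ _ _⟩)) z
  · exact two_false hk (P := wt S h0 ho 2 le_rfl) (Q := wt S h0 hp 2 le_rfl)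
      (R := wt S h0 hq C le_rfl) (wt_left S h0 ho hp D1 s1 _ _ _ _)
      (Or.inr (Or.inr ⟨wt_left S h0 ho hq D2 s2 _ _ _ _,
        wt_left S h0 hp hq D3 s3 _ _ _ _⟩)) z

omit S h0 in
/-- The element of the negative edge does not move up. -/
theorem fix24 {p q : ℕ} (S : Sys Γ δ X Y a b 1)
    (hp : ∀ z, z ≤ b z → (b ^ p) z ≤ (a ^ q) z) (hq : 0 < q) (hpq : q ≤ p)
    {j : ℕ} (n len : Fin j → ℕ) (w : Fin j → ℕ → E) (A : Fin j → E → Prop)
    (hr : ∀ i, Way Γ δ X Y (n i) (len i) (w i) (A i))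
    (ha : ∀ i i', i ≠ i' → Apart Γ (len i) (len i') (w i) (w i') (A i) (A i'))
    (h1 : (q : ℚ) / p ≤ ∑ i, 1 / (n i : ℚ))
    (hX : (q : ℚ) / p < ∑ i, 1 / (n i : ℚ) ∨ Extra Γ δ w) (h2 : ¬ Realizable ((q : ℚ) / p) n)
    {z : Ω} (hz : z < a z) : False := by
  have h0 : z < a z := hz
  have z' : {t // Reg a z t} := ⟨z, reg_self a z⟩
  have hn : ∀ i, 0 < n i := by
    intro i
    obtain ⟨ℓ, e1, e2⟩ := (hr i).len
    have e3 := (e1 0 (hr i).arc.pos).1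
    have e4 : ℓ 0 ≤ ∑ i ∈ Finset.range (len i), ℓ i :=
      Finset.single_le_sum (f := ℓ) (fun _ _ => Nat.zero_le _)
        (Finset.mem_range.mpr (hr i).arc.pos)
    omega
  have hk : ∀ z, bJ S h0 z ≤ aJ h0 z := fun z => S.b_le_a (reg_lt h0 z.2).le
  have hc : ∀ z, aJ h0 (bJ S h0 z) = bJ S h0 (aJ h0 z) := fun z => Subtype.ext (S.comm z.1)
  have hJ : ∀ z, (bJ S h0 ^ p) z ≤ (aJ h0 ^ q) z := by
    intro z
    change ((bJ S h0 ^ p) z).1 ≤ ((aJ h0 ^ q) z).1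
    rw [bJ_pow24, aJ_pow24]
    exact hp _ (S.b_ge (reg_lt h0 z.2).le)
  have hb : ∀ (i : Fin j), ∀ z, z < bJ S h0 z := fun i => b_gt (wt S h0 (hr i) (n i) le_rfl)
  cases cases_of hn hq hpq h1 hX h2 with
  | a i h => exact one_lt_false hJ (wt S h0 (hr i) (n i) le_rfl) h z'
  | a' i i' hi h =>
    exact one_eq_false hJ (wt S h0 (hr i) (n i) le_rfl) (wt S h0 (hr i') (n i') le_rfl)
      (left_or24 S h0 (hr i) (hr i') (ha i i' hi) _ _ _ _) hq h z'
  | a'' i h hX =>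
    obtain ⟨e, he, he1, he2, haw⟩ := hX
    refine one_extra24 S h0 (hr i) (fun z => ?_) he he1 (he2 i) haw
    have h3 := pow_cross hc (hb i) hq hJ (x := n i) (y := 1) (by omega) z
    rwa [pow_one] at h3
  | d'' i i' hi h h' hX =>
    obtain ⟨e, he, he1, he2, haw⟩ := hX
    exact two_extra24 S h0 hk ((hr i).mono h.le) ((hr i').mono h'.le) (ha i i' hi) he he1 (he2 i)
      (he2 i') haw
  | b i i' hi c h2 hc1 h h' hr' =>
    exact blockB h2 hc1 h (pow_cross hc (hb i) hq hJ hr') hc (wt S h0 (hr i) (n i) le_rfl)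
      (wt S h0 (hr i') ((c + 1) * n i - 1) h')
      (left_or24 S h0 (hr i) (hr i') (ha i i' hi) _ _ _ _) z'
  | c i i' hi h h' hr' =>
    exact two_three_false hc (pow_cross hc (hb i) hq hJ (by omega)) (wt S h0 (hr i) 2 h.le)
      (wt S h0 (hr i') 3 h'.le) (left_or24 S h0 (hr i) (hr i') (ha i i' hi) _ _ _ _) z'
  | d i i' i'' hi hi' hi'' h h' =>
    exact two_two24 S h0 (C := n i'')
      ⟨_, _, _, _, _, _, _, _, _, (hr i).mono h.le, (hr i').mono h'.le, hr i'',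
        ha _ _ hi, ha _ _ hi', ha _ _ hi''⟩
  | d' i i' i'' hi hi' hi'' h h' h'' =>
    exact not_up24 S h0
      ⟨_, _, _, _, _, _, _, _, _, (hr i).mono h.le, (hr i').mono h'.le, (hr i'').mono h'',
        ha _ _ hi, ha _ _ hi', ha _ _ hi''⟩
  | e i i' hi h h' hr' =>
    exact two_two_false hk hJ hr' (left_or24 S h0 (hr i) (hr i') (ha i i' hi) 2 2 h.le h'.le) z'

end

end Pool.Agent.Helper24.T8
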