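import Pool.Agent.Helper24.T8.Res
import Pool.Agent.Helper42.Th.Piece

/-!
The bound for the slope of an edge whose ends are joined by short paths, at one point.
-/

set_option autoImplicit false

namespace Pool.Agent.Helper24.T8

open Pool.Agent.Helper42.Th Pool.Agent.Helper31.T3 Pool.Agent.Helper42.T3 Pool.Agent.Helper42.T4

variable {E : Type} {Ω : Type*} [LinearOrder Ω] {Γ : CMap E} {δ : E}

section words

variable {a b : Ω ≃o Ω} {z₀ : Ω}

lemma comm_pow {u v : Ω ≃o Ω} (hc : ∀ z, u (v z) = v (u z)) (m n : ℕ) (z : Ω) :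
    (u ^ m) ((v ^ n) z) = (v ^ n) ((u ^ m) z) := by
  have hC : Commute u v := by
    ext t
    exact hc t
  rw [← RelIso.mul_apply, ← RelIso.mul_apply, (hC.pow_pow m n).eq]

lemma apow_le (h0 : z₀ < a z₀) {z : Ω} (hz : Reg a z₀ z) {m n : ℕ} (h : m ≤ n) :
    (a ^ m) z ≤ (a ^ n) z := by
  have key : ∀ e : ℕ, z ≤ (a ^ e) z := by
    intro e
    induction e with
    | zero => exact le_rfl
    | succ e ih =>
      rw [pow_succ', RelIso.mul_apply]
      exact (reg_lt h0 hz).le.trans (a.monotone ih)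
  obtain ⟨e, rfl⟩ := Nat.exists_eq_add_of_le h
  rw [pow_add, RelIso.mul_apply]
  exact (a ^ m).monotone (key e)

/-- A bound at one point gives a weaker bound on the interval. -/
theorem all_of_one (hc : ∀ z, a (b z) = b (a z)) (h0 : z₀ < a z₀) {p q p' q' : ℕ}
    (h : q' * p < q * p') (h1 : (b ^ p') z₀ ≤ (a ^ q') z₀) {y : Ω} (hy : Reg a z₀ y) :
    (b ^ p) y ≤ (a ^ q) y := by
  by_contra hn
  push Not at hn
  obtain ⟨k, h2, h3⟩ := hy
  have hcb : ∀ (m n : ℕ) z, (a ^ m) ((b ^ n) z) = (b ^ n) ((a ^ m) z) := fun m n z =>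
    comm_pow hc m n z
  -- the powers at `z₀`
  have e1 : ∀ m : ℕ, (b ^ (p' * m)) z₀ ≤ (a ^ (q' * m)) z₀ := by
    intro m
    induction m with
    | zero => exact le_rfl
    | succ m ih =>
      rw [Nat.mul_succ, Nat.mul_succ, Nat.add_comm (p' * m), pow_add, RelIso.mul_apply, pow_add,
        RelIso.mul_apply]
      refine ((b ^ p').monotone ih).trans ?_
      rw [← hcb]
      exact (a ^ (q' * m)).monotone h1
  -- the powers at `y`
  have hcc : ∀ z, (a ^ q) ((b ^ p) z) = (b ^ p) ((a ^ q) z) := fun z => hcb q p z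
  have e2 : ∀ m : ℕ, 0 < m → (a ^ (q * m)) y < (b ^ (p * m)) y := by
    intro m hm
    rw [pow_mul, pow_mul]
    exact pow_lt_of hcc hn hm
  have h4 : z₀ ≤ (a ^ k) y := by
    have := (a ^ k).monotone h2
    rwa [← RelIso.mul_apply, inv_pow, mul_inv_cancel] at this
  have hp' : 0 < p' := by
    rcases Nat.eq_zero_or_pos p' with rfl | h5
    · rw [Nat.mul_zero] at h
      omega
    · exact h5
  have e3 : (a ^ (q * (p' * (2 * k + 1)))) y < (a ^ (k + (q' * (p * (2 * k + 1)) + k))) y := by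
    refine (e2 _ (by positivity)).trans_le ?_
    have e4 : p * (p' * (2 * k + 1)) = p' * (p * (2 * k + 1)) := by ring
    rw [e4]
    refine ((b ^ (p' * (p * (2 * k + 1)))).monotone h3).trans ?_
    rw [← hcb, pow_add a k, RelIso.mul_apply, pow_add a _ k, RelIso.mul_apply]
    exact (a ^ k).monotone ((e1 _).trans ((a ^ _).monotone h4))
  refine absurd e3 (not_lt.mpr (apow_le h0 ⟨k, h2, h3⟩ ?_))
  have h5 : (q' * p + 1) * (2 * k + 1) ≤ q * p' * (2 * k + 1) := Nat.mul_le_mul_right _ h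
  have e6 : q * (p' * (2 * k + 1)) = q * p' * (2 * k + 1) := by ring
  have e7 : k + (q' * (p * (2 * k + 1)) + k) = q' * p * (2 * k + 1) + 2 * k := by ring
  rw [e6, e7]
  refine le_trans ?_ h5
  rw [Nat.add_mul]
  omega

end words

variable [Finite E] {X Y : E → Ω ≃o Ω} {a b : Ω ≃o Ω}

/-- There is a point of the region where the slope is larger than `q / p`. -/
theorem closed (H : ∀ z, Harm Γ δ (fun d => X d z) (fun d => Y d z))
    (ha : ∀ z, X (Γ.flip δ) (a z) = X δ z) (hb : ∀ z, Y δ (b z) = Y (Γ.flip δ) z)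
    (hc : ∀ z, a (b z) = b (a z)) (hl : ∀ i : ℕ, (Γ.rot ^ i) δ ≠ Γ.flip δ)
    (hd : ∀ i : ℕ, (Γ.dual.rot ^ i) δ ≠ Γ.flip δ) {p q : ℕ} (hq : 0 < q) (hpq : q ≤ p)
    {j : ℕ} (n len : Fin j → ℕ) (w : Fin j → ℕ → E) (A : Fin j → E → Prop)
    (hr : ∀ i, Way Γ δ X Y (n i) (len i) (w i) (A i))
    (hap : ∀ i i', i ≠ i' → Apart Γ (len i) (len i') (w i) (w i') (A i) (A i'))
    (h1 : (q : ℚ) / p ≤ ∑ i, 1 / (n i : ℚ))
    (hX : (q : ℚ) / p < ∑ i, 1 / (n i : ℚ) ∨ Extra Γ δ w) (h2 : ¬ Realizable ((q : ℚ) / p) n)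
    {z : Ω} (hz : z < a z) : ∃ y, Reg a z y ∧ (a ^ q) y < (b ^ p) y := by
  by_contra hn
  push Not at hn
  have hgt : ∀ y, Reg a z y → y < b y := by
    intro y hy
    have h3 := reg_lt hz hy
    have h4 : X (Γ.flip δ) y < X δ y := by
      rw [← ha y]
      exact (X (Γ.flip δ)).strictMono h3
    have h5 : Y δ y ≤ Y (Γ.flip δ) y := (H y).sgn hl h4.le
    have h6 : Y (Γ.flip δ) y ≠ Y δ y := fun e => h4.ne ((H y).strict hd e)
    rw [← (Y δ).lt_iff_lt, hb y]
    exact lt_of_le_of_ne h5 (Ne.symm h6)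
  have hle : ∀ y, Reg a z y → b y ≤ a y := by
    intro y hy
    by_contra hn'
    push Not at hn'
    have h3 := pow_lt_of hc hn' hq
    have h4 : ∀ e : ℕ, y ≤ (b ^ e) y := by
      intro e
      induction e with
      | zero => exact le_rfl
      | succ e ih =>
        rw [pow_succ', RelIso.mul_apply]
        exact (hgt y hy).le.trans (b.monotone ih)
    have h5 : (b ^ q) y ≤ (b ^ p) y := by
      obtain ⟨e, rfl⟩ := Nat.exists_eq_add_of_le hpq
      rw [pow_add, RelIso.mul_apply]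
      exact (b ^ q).monotone (h4 e)
    exact absurd (hn y hy) (not_le.mpr (h3.trans_le h5))
  have S : Pre Γ δ X Y a b z := ⟨H, ha, hb, hc, hz, hgt, hle⟩
  refine fix24 S.sys (fun y _ => ?_) hq hpq n len w A (fun i => S.way (hr i)) hap h1 hX
    h2 (z := ⟨z, reg_self a z⟩) hz
  change ((S.bI ^ p) y).1 ≤ ((aJ S.h0 ^ q) y).1
  rw [S.bI_pow, aJ_pow24]
  exact hn y.1 y.2

end Pool.Agent.Helper24.T8
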