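import Pool.Agent.Helper24.T8.Gen

/-!
The labels on an interval without fixed points.
-/

set_option autoImplicit false

namespace Pool.Agent.Helper24.T8

open Pool.Agent.Helper42.Th Pool.Agent.Helper31.T3 Pool.Agent.Helper42.T3 Pool.Agent.Helper42.T4

variable {E : Type} {Ω : Type*} [LinearOrder Ω] {Γ : CMap E} {δ : E}

/-- The labels, and the region of a point `z₀` which is moved up by `a`. -/
structure Pre (Γ : CMap E) (δ : E) (X Y : E → Ω ≃o Ω) (a b : Ω ≃o Ω) (z₀ : Ω) : Prop where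
  harm : ∀ z, Harm Γ δ (fun d => X d z) (fun d => Y d z)
  ha : ∀ z, X (Γ.flip δ) (a z) = X δ z
  hb : ∀ z, Y δ (b z) = Y (Γ.flip δ) z
  comm : ∀ z, a (b z) = b (a z)
  h0 : z₀ < a z₀
  gt : ∀ z, Reg a z₀ z → z < b z
  le : ∀ z, Reg a z₀ z → b z ≤ a z

variable {X Y : E → Ω ≃o Ω} {a b : Ω ≃o Ω} {z₀ : Ω}

namespace Pre

section one

variable (S : Pre Γ δ X Y a b z₀)
include S

variable [Finite E]

lemma ext {z : Ω} (hz : Reg a z₀ z) (d : E) :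
    X (Γ.flip δ) z ≤ X d z ∧ X d z ≤ X δ z ∧ Y δ z ≤ Y d z ∧ Y d z ≤ Y (Γ.flip δ) z := by
  refine (S.harm z).ext ?_ ?_ d
  · rw [← S.ha z]
    exact (X (Γ.flip δ)).monotone (reg_lt S.h0 hz).le
  · rw [← S.hb z]
    exact (Y δ).monotone (S.gt z hz).le

lemma x_bd (d : E) (z : Ω) (hz : Reg a z₀ z) :
    a⁻¹ z ≤ ((X (Γ.flip δ))⁻¹ * X d) z ∧ ((X (Γ.flip δ))⁻¹ * X d) z ≤ a z := by
  have h1 := S.ext hz d
  rw [RelIso.mul_apply]
  constructor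
  · refine (inv_le S.h0 hz).trans ?_
    rw [← (X (Γ.flip δ)).le_iff_le, RelIso.apply_inv_self]
    exact h1.1
  · rw [← (X (Γ.flip δ)).le_iff_le, RelIso.apply_inv_self, S.ha]
    exact h1.2.1

lemma y_bd (d : E) (z : Ω) (hz : Reg a z₀ z) :
    a⁻¹ z ≤ ((Y δ)⁻¹ * Y d) z ∧ ((Y δ)⁻¹ * Y d) z ≤ a z := by
  have h1 := S.ext hz d
  rw [RelIso.mul_apply]
  constructor
  · refine (inv_le S.h0 hz).trans ?_
    rw [← (Y δ).le_iff_le, RelIso.apply_inv_self]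
    exact h1.2.2.1
  · refine le_trans ?_ (S.le z hz)
    rw [← (Y δ).le_iff_le, RelIso.apply_inv_self, S.hb]
    exact h1.2.2.2

omit [Finite E] in
lemma b_bd (z : Ω) (hz : Reg a z₀ z) : a⁻¹ z ≤ b z ∧ b z ≤ a z :=
  ⟨(inv_le S.h0 hz).trans (S.gt z hz).le, S.le z hz⟩

/-- The label of a vertex on the interval. -/
def xJ (d : E) : {z // Reg a z₀ z} ≃o {z // Reg a z₀ z} := restr S.h0 _ (S.x_bd d)

/-- The label of a face on the interval. -/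
def yJ (d : E) : {z // Reg a z₀ z} ≃o {z // Reg a z₀ z} := restr S.h0 _ (S.y_bd d)

omit [Finite E] in
/-- The element of the faces on the interval. -/
def bI : {z // Reg a z₀ z} ≃o {z // Reg a z₀ z} := restr S.h0 _ S.b_bd

lemma x_eq (d : E) (z : {z // Reg a z₀ z}) : X (Γ.flip δ) (S.xJ d z).1 = X d z.1 := by
  change X (Γ.flip δ) (((X (Γ.flip δ))⁻¹ * X d) z.1) = _
  rw [RelIso.mul_apply, RelIso.apply_inv_self]

lemma y_eq (d : E) (z : {z // Reg a z₀ z}) : Y δ (S.yJ d z).1 = Y d z.1 := by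
  change Y δ (((Y δ)⁻¹ * Y d) z.1) = _
  rw [RelIso.mul_apply, RelIso.apply_inv_self]

lemma x_le (d e : E) (z w : {z // Reg a z₀ z}) : S.xJ d z ≤ S.xJ e w ↔ X d z.1 ≤ X e w.1 := by
  rw [← S.x_eq d z, ← S.x_eq e w, (X (Γ.flip δ)).le_iff_le]
  rfl

lemma y_le (d e : E) (z w : {z // Reg a z₀ z}) : S.yJ d z ≤ S.yJ e w ↔ Y d z.1 ≤ Y e w.1 := by
  rw [← S.y_eq d z, ← S.y_eq e w, (Y δ).le_iff_le]
  rfl

lemma x_inj (d e : E) (z w : {z // Reg a z₀ z}) : S.xJ d z = S.xJ e w ↔ X d z.1 = X e w.1 := by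
  rw [le_antisymm_iff, le_antisymm_iff, S.x_le, S.x_le]

lemma y_inj (d e : E) (z w : {z // Reg a z₀ z}) : S.yJ d z = S.yJ e w ↔ Y d z.1 = Y e w.1 := by
  rw [le_antisymm_iff, le_antisymm_iff, S.y_le, S.y_le]

/-- The system on the interval. -/
theorem sys : Sys Γ δ S.xJ S.yJ (aJ S.h0) S.bI 1 where
  harm z := by
    have h := S.harm z.1
    refine ⟨fun d => ?_, fun d => ?_, fun d h1 h2 h3 => ?_, fun d h1 h2 h3 => ?_⟩
    · exact (S.x_inj _ _ _ _).mpr (h.f_rot d)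
    · exact (S.y_inj _ _ _ _).mpr (h.g_rot d)
    · exact (S.y_le _ _ _ _).mpr (h.pos d h1 h2 ((S.x_le _ _ _ _).mp h3))
    · exact (S.x_inj _ _ _ _).mpr (h.str d h1 h2 ((S.y_inj _ _ _ _).mp h3))
  ha z := (S.x_inj _ _ _ _).mpr (S.ha z.1)
  hb z := (S.y_inj _ _ _ _).mpr (S.hb z.1)
  comm z := Subtype.ext (S.comm z.1)
  kpos := one_pos
  up z _ := by
    rw [pow_one]
    exact S.le z.1 z.2
  dn z hz := absurd (S.gt z.1 z.2) (not_lt.mpr hz)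

lemma N_eq24 (d : E) (z : {z // Reg a z₀ z}) :
    (Sys.N Γ S.yJ d z).1 = Sys.N Γ Y d z.1 := by
  apply (Y (Γ.flip d)).injective
  rw [Sys.Y_N]
  exact (S.y_inj _ _ _ _).mp (Sys.Y_N (Γ := Γ) (Y := S.yJ) d z)

lemma Npow_eq (d : E) (ℓ : ℕ) (z : {z // Reg a z₀ z}) :
    ((Sys.N Γ S.yJ d ^ ℓ) z).1 = (Sys.N Γ Y d ^ ℓ) z.1 := by
  induction ℓ generalizing z with
  | zero => rfl
  | succ ℓ ih =>
    rw [pow_succ, pow_succ, RelIso.mul_apply, RelIso.mul_apply, ih, S.N_eq24]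

lemma slope {d : E} {ℓ : ℕ} (h : Slope Γ X Y d ℓ) : Slope Γ S.xJ S.yJ d ℓ := by
  intro z hz
  rw [S.x_le, S.Npow_eq]
  exact h z.1 ((S.x_le _ _ _ _).mp hz)

lemma way {N n : ℕ} {p : ℕ → E} {F : E → Prop} (h : Way Γ δ X Y N n p F) :
    Way Γ δ S.xJ S.yJ N n p F := by
  obtain ⟨ℓ, h1, h2⟩ := h.len
  exact ⟨h.arc, h.side, ℓ, fun i hi => ⟨(h1 i hi).1, S.slope (h1 i hi).2⟩, h2⟩

omit [Finite E] in
lemma bI_pow (n : ℕ) (z : {z // Reg a z₀ z}) : ((S.bI ^ n) z).1 = (b ^ n) z.1 := by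
  induction n generalizing z with
  | zero => rfl
  | succ n ih =>
    rw [pow_succ, pow_succ, RelIso.mul_apply, RelIso.mul_apply, ih]
    rfl

end one

end Pre

end Pool.Agent.Helper24.T8
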