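import Pool.Agent.Helper24.T8.Words

/-!
What a filling and a lower bound for the slope mean for actions on linear orders.
-/

set_option autoImplicit false

namespace Pool.Agent.Helper24.T8

open Pool.Agent.Helper42.Th Pool.Agent.Helper31.T3 Pool.Agent.Helper42.T3 Pool.Agent.Helper42.T4
open Pool.Agent.Helper31.OrderAct
open Pool.Agent.Helper71.Rot
open Pool.Agent.Helper71.Tree (FillSpec solid_spec)

universe u

section low

variable {E : Type} {G : Type u} [Group G] {Γ : CMap E} {L : Lab G Γ} {δ : E}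

lemma slope_of_spec {Ω : Type u} [CompleteLinearOrder Ω] {ρ : G →* (Ω ≃o Ω)} {d : E} {ℓ : ℕ}
    {S : Set (Ω ≃o Ω)}
    (h : FillSpec false (some 0) none (ρ (L.M d ^ ℓ * (L.D d)⁻¹)) (ρ (L.D d)) S) :
    Slope Γ (lx L ρ) (ly L ρ) d ℓ := by
  intro z hz
  have hz' : z ≤ ρ (L.D d) z := (up_D L ρ).mpr hz
  have hc : Commute (L.M d) (L.D d) := comm_MD L d
  have h2 := (h.bd (by
    rw [← map_mul, ← map_mul]
    congr 1
    exact ((hc.pow_left ℓ).mul_left (Commute.refl _).inv_left).eq)).lower 0 rfl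
  rw [neg_zero, zpow_zero, one_mul] at h2
  have h3 := (ρ (L.D d)).monotone (h2.up z hz').1
  have h4 : ρ (L.D d) (ρ (L.M d ^ ℓ * (L.D d)⁻¹) z) = (Sys.N Γ (ly L ρ) d ^ ℓ) z := by
    rw [← RelIso.mul_apply, ← map_mul, ← map_M, ← map_pow]
    congr 2
    rw [← mul_assoc, ← (hc.pow_left ℓ).eq, mul_assoc, mul_inv_cancel, mul_one]
  rw [h4] at h3
  rw [← X_D L ρ d z]
  exact (lx L ρ (Γ.flip d)).monotone h3

variable {n : ℕ} {w : ℕ → E} {A : E → Prop}

lemma Geo.arc (h : Geo Γ δ n w A) : Arc Γ δ n w :=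
  ⟨h.pos, h.ne, h.start, h.next, h.stop, h.simple, fun i hi h1 => h.simple' i hi h1.symm⟩

lemma Geo.sd (h : Geo Γ δ n w A) : Side Γ δ n w {d | A d} where
  face := h.face
  mem := h.side.1
  not_mem := h.side.2
  iff e h1 h2 := by
    refine (h.change e h1 h2).trans ?_
    simp only [ne_comm (b := e), ne_comm (b := Γ.flip e)]

lemma Geo.loop (h : Geo Γ δ n w A) (i : ℕ) : (Γ.rot ^ i) δ ≠ Γ.flip δ := by
  intro h1
  refine h.simple' 0 h.pos (h.start.symm.trans ?_)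
  exact ⟨i, by rw [zpow_natCast, h1]⟩

lemma Geo.bridge (h : Geo Γ δ n w A) (i : ℕ) : (Γ.dual.rot ^ i) δ ≠ Γ.flip δ := by
  have key : ∀ i : ℕ, A ((Γ.dual.rot ^ i) δ) := by
    intro i
    induction i with
    | zero => exact h.side.1
    | succ i ih =>
      rw [pow_succ', Equiv.Perm.mul_apply]
      exact (h.face _).mpr ih
  intro h1
  exact h.side.2 (h1 ▸ key i)

variable [Finite E]

/-- The bound `0`. -/
theorem low_zero (hl : ∀ i : ℕ, (Γ.rot ^ i) δ ≠ Γ.flip δ)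
    (hb : ∀ i : ℕ, (Γ.dual.rot ^ i) δ ≠ Γ.flip δ) : LowSpec Γ L δ 0 1 := by
  refine ⟨one_pos, zero_le_one, hl, hb, fun Ω _ ρ H z hz => ⟨z, reg_self _ z, ?_⟩⟩
  have h4 : lx L ρ (Γ.flip δ) z < lx L ρ δ z := by
    rw [← X_D L ρ δ z]
    exact (lx L ρ (Γ.flip δ)).strictMono hz
  have h5 := (H z).sgn hl h4.le
  have h6 : ly L ρ (Γ.flip δ) z ≠ ly L ρ δ z := fun e => h4.ne ((H z).strict hb e)
  have h7 : ρ (L.M δ) z < z := by
    refine lt_of_le_of_ne ((dn_M L ρ).mpr h5) fun e => h6 ?_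
    exact le_antisymm ((up_M L ρ).mp e.ge) ((dn_M L ρ).mp e.le)
  rw [pow_zero, pow_one]
  change z < ρ (L.M δ)⁻¹ z
  rw [← (ρ (L.M δ)).lt_iff_lt, ← RelIso.mul_apply, ← map_mul, mul_inv_cancel, map_one]
  exact h7

/-- The bound given by short paths. -/
theorem low_short {q p : ℕ} (hq : 0 < q) (hpq : q ≤ p)
    {j : ℕ} (n len : Fin j → ℕ) (w : Fin j → ℕ → E) (A : Fin j → E → Prop)
    (hg : ∀ i, Geo Γ δ (len i) (w i) (A i))
    (ha : ∀ i i', i ≠ i' → Apart Γ (len i) (len i') (w i) (w i') (A i) (A i'))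
    (ℓ : Fin j → ℕ → ℕ) (R : Fin j → ℕ → Set G) (hℓ : ∀ i, ∀ t < len i, 0 < ℓ i t)
    (hr : ∀ i, ∀ t < len i, ∀ (Ω : Type u) [CompleteLinearOrder Ω] (ρ : G →* (Ω ≃o Ω)),
      FillSpec false (some 0) none (ρ (L.M (w i t) ^ ℓ i t * (L.D (w i t))⁻¹))
        (ρ (L.D (w i t))) (ρ '' R i t))
    (hn : ∀ i, ∑ t ∈ Finset.range (len i), ℓ i t ≤ n i)
    (h1 : (q : ℚ) / p ≤ ∑ i, 1 / (n i : ℚ))
    (hX : (q : ℚ) / p < ∑ i, 1 / (n i : ℚ) ∨ Extra Γ δ w) (h2 : ¬ Realizable ((q : ℚ) / p) n) :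
    LowSpec Γ L δ q p := by
  have hj : Nonempty (Fin j) := by
    by_contra hcon
    rw [not_nonempty_iff] at hcon
    rw [Finset.univ_eq_empty, Finset.sum_empty] at h1
    have hq' : (0 : ℚ) < q := by exact_mod_cast hq
    have hp' : (0 : ℚ) < p := by exact_mod_cast (by omega : 0 < p)
    exact absurd h1 (not_le.mpr (by positivity))
  obtain ⟨i₀⟩ := hj
  refine ⟨by omega, hpq, (hg i₀).loop, (hg i₀).bridge, fun Ω _ ρ H z hz => ?_⟩
  refine closed H (X_D L ρ δ) (fun z => ?_) (comm_ab L δ ρ) (hg i₀).loop (hg i₀).bridge hq hpq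
    n len w A (fun i => ⟨(hg i).arc, (hg i).sd, ℓ i, fun t ht =>
      ⟨hℓ i t ht, slope_of_spec (hr i t ht Ω ρ)⟩, hn i⟩) ha h1 hX h2 hz
  change ρ (L.y δ) (ρ (L.M δ)⁻¹ z) = ρ (L.y (Γ.flip δ)) z
  rw [← RelIso.mul_apply, ← map_mul, Lab.M, mul_inv_rev, inv_inv, mul_inv_cancel_left]

end low

section glue

variable {E : Type} {G : Type u} [Group G] {Γ : CMap E} {L : Lab G Γ} {δ : E} {q p q' p' : ℕ}
  {P : Set E} {F : E → Set G} [Finite E]

/-- If the peripheral elements fix a point, all elements fix it. -/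
lemma all_fix (h₁ : LowSpec Γ L δ q p) {Ω : Type u} [CompleteLinearOrder Ω]
    {ρ : G →* (Ω ≃o Ω)} (H : HarmAt Γ L δ Ω ρ)
    (hF : ∀ d ∈ P, FillSpec true (some 0) none (ρ (L.M d)) (ρ (L.D d)) (ρ '' F d)) {z : Ω}
    (hD : ρ (L.D δ) z = z) : ρ (L.M δ) z = z ∧ ∀ g ∈ L.elts ∪ ⋃ d ∈ P, F d, ρ g z = z := by
  have e1 : lx L ρ (Γ.flip δ) z = lx L ρ δ z :=
    le_antisymm ((up_D L ρ).mp hD.ge) ((dn_D L ρ).mp hD.le)
  have hM : ρ (L.M δ) z = z :=
    le_antisymm ((dn_M L ρ).mpr ((H z).sgn h₁.loop e1.le))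
      ((up_M L ρ).mpr ((H z).op.sgn h₁.loop e1.ge))
  have e2 : ly L ρ (Γ.flip δ) z = ly L ρ δ z :=
    le_antisymm ((up_M L ρ).mp hM.ge) ((dn_M L ρ).mp hM.le)
  have hX : ∀ d, lx L ρ d z = lx L ρ δ z := by
    intro d
    obtain ⟨h3, h4, -, -⟩ := (H z).ext e1.le e2.ge d
    exact le_antisymm h4 (e1 ▸ h3)
  have hY : ∀ d, ly L ρ d z = ly L ρ δ z := by
    intro d
    obtain ⟨-, -, h3, h4⟩ := (H z).ext e1.le e2.ge d
    exact le_antisymm (e2 ▸ h4) h3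
  have hX1 : ∀ d, ρ (L.x d) z = z := by
    obtain ⟨c, hc⟩ := L.x_one
    intro d
    have h3 : lx L ρ d z = lx L ρ c z := (hX d).trans (hX c).symm
    change ρ (L.x d) z = ρ (L.x c) z at h3
    rw [h3, hc, map_one]
    rfl
  have hY1 : ∀ d, ρ (L.y d) z = z := by
    obtain ⟨c, hc⟩ := L.y_one
    intro d
    have h3 : ly L ρ d z = ly L ρ c z := (hY d).trans (hY c).symm
    change ρ (L.y d) z = ρ (L.y c) z at h3
    rw [h3, hc, map_one]
    rfl
  have hDd : ∀ d, ρ (L.D d) z = z := by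
    intro d
    rw [Lab.D, map_mul, map_inv, RelIso.mul_apply, hX1]
    exact inv_fix (hX1 _)
  have hMd : ∀ d, ρ (L.M d) z = z := by
    intro d
    rw [Lab.M, map_mul, map_inv, RelIso.mul_apply, hY1]
    exact inv_fix (hY1 _)
  refine ⟨hM, fun y hy => ?_⟩
  rcases hy with (⟨d, rfl⟩ | ⟨d, rfl⟩) | hy
  · exact hX1 d
  · exact hY1 d
  · obtain ⟨d, hd⟩ := Set.mem_iUnion.mp hy
    obtain ⟨hd1, hd2⟩ := Set.mem_iUnion.mp hd
    exact (hF d hd1).fix z (hMd d) (hDd d) _ ⟨y, hd2, rfl⟩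

/-- A positive word is positive with respect to another positive word. -/
lemma wd_pos (h₁ : LowSpec Γ L δ q p) (h₂ : LowSpec Γ.dual (dual L) δ q' p') {A B C D : ℤ}
    (hK : Cone q p q' p' A B) (hK' : Cone q p q' p' C D) {Ω : Type u} [CompleteLinearOrder Ω]
    {ρ : G →* (Ω ≃o Ω)} (H : HarmAt Γ L δ Ω ρ)
    (H' : HarmAt Γ L δ Ωᵒᵈ ((opHom Ω).comp ρ)) :
    Pos (ρ (wd L δ A B)) (ρ (wd L δ C D)) := by
  obtain ⟨n, hn⟩ : ∃ n : ℕ, Cone q p q' p' (C * n - A) (D * n - B) := by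
    obtain ⟨k1, k2⟩ := hK
    obtain ⟨k3, k4⟩ := hK'
    refine ⟨(A * q + B * p + (A * p' + B * q')).toNat + 1, ?_⟩
    have e : ((A * q + B * p + (A * p' + B * q')).toNat : ℤ) =
        A * q + B * p + (A * p' + B * q') := Int.toNat_of_nonneg (by omega)
    constructor
    · push_cast
      rw [e]
      have : (C * (A * q + B * p + (A * p' + B * q') + 1) - A) * q +
          (D * (A * q + B * p + (A * p' + B * q') + 1) - B) * p =
          (C * q + D * p) * (A * q + B * p + (A * p' + B * q') + 1) - (A * q + B * p) := by ring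
      rw [this]
      nlinarith
    · push_cast
      rw [e]
      have : (C * (A * q + B * p + (A * p' + B * q') + 1) - A) * p' +
          (D * (A * q + B * p + (A * p' + B * q') + 1) - B) * q' =
          (C * p' + D * q') * (A * q + B * p + (A * p' + B * q') + 1) - (A * p' + B * q') := by
        ring
      rw [this]
      nlinarith
  have hsplit : wd L δ C D ^ n = wd L δ A B * wd L δ (C * n - A) (D * n - B) := by
    rw [wd_pow, wd_mul]
    congr 1 <;> ring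
  have hc : wd L δ A B * wd L δ C D = wd L δ C D * wd L δ A B := by
    rw [wd_mul, wd_mul, add_comm A, add_comm B]
  refine ⟨by rw [← map_mul, hc, map_mul], fun s hs => ?_, fun s hs => ?_⟩
  · have h3 := (wd_sgn h₁ h₂ hK' H H' s).1.mp hs
    refine ⟨(wd_sgn h₁ h₂ hK H H' s).1.mpr h3, n, ?_⟩
    rw [← map_pow, hsplit, map_mul, RelIso.mul_apply]
    exact (ρ (wd L δ A B)).monotone ((wd_sgn h₁ h₂ hn H H' s).1.mpr h3)
  · have h3 := (wd_sgn h₁ h₂ hK' H H' s).2.mp hs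
    refine ⟨(wd_sgn h₁ h₂ hK H H' s).2.mpr h3, n, ?_⟩
    rw [← map_pow, hsplit, map_mul, RelIso.mul_apply]
    exact (ρ (wd L δ A B)).monotone ((wd_sgn h₁ h₂ hn H H' s).2.mpr h3)

/-- The specification of a glued piece. -/
theorem glue_spec (s : Bool) (hP : ∀ d, d ≠ δ → d ≠ Γ.flip δ → d ∈ P ∨ Γ.flip d ∈ P)
    (hF : ∀ d ∈ P, ∀ (Ω : Type u) [CompleteLinearOrder Ω] (ρ : G →* (Ω ≃o Ω)),
      FillSpec true (some 0) none (ρ (L.M d)) (ρ (L.D d)) (ρ '' F d))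
    (h₁ : LowSpec Γ L δ q p) (h₂ : LowSpec Γ.dual (dual L) δ q' p') {A B C D : ℤ}
    (hK : Cone q p q' p' A B) (hK' : Cone q p q' p' C D) (Ω : Type u) [CompleteLinearOrder Ω]
    (ρ : G →* (Ω ≃o Ω)) : FillSpec s (some 0) none (ρ (wd L δ A B)) (ρ (wd L δ C D))
      (ρ '' (L.elts ∪ ⋃ d ∈ P, F d)) := by
  have H : HarmAt Γ L δ Ω ρ := harm_of_fill L ρ hP fun d hd => hF d hd Ω ρ
  have H' : HarmAt Γ L δ Ωᵒᵈ ((opHom Ω).comp ρ) :=
    harm_of_fill L _ hP fun d hd => hF d hd Ωᵒᵈ _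
  have hpos := wd_pos h₁ h₂ hK hK' H H'
  have fixD : ∀ {z}, ρ (wd L δ A B) z = z → ρ (L.D δ) z = z := fun {z} h =>
    le_antisymm ((wd_sgn h₁ h₂ hK H H' z).1.mp h.ge) ((wd_sgn h₁ h₂ hK H H' z).2.mp h.le)
  refine ⟨fun hc => ⟨hc, ?_, ?_, ?_⟩, ?_, ?_⟩
  · rintro k hk
    obtain rfl : (0 : ℤ) = k := Option.some_injective _ hk
    rw [neg_zero, zpow_zero, one_mul]
    exact hpos
  · intro k hk
    exact absurd hk (by simp)
  · refine ⟨0, Or.inl ?_⟩
    rw [neg_zero, zpow_zero, one_mul]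
    exact hpos
  · rintro z h3 _ _ ⟨g, hg, rfl⟩
    exact (all_fix h₁ H (fun d hd => hF d hd Ω ρ) (fixD h3)).2 g hg
  · intro _ _ k hk z h3
    obtain rfl : (0 : ℤ) = k := Option.some_injective _ hk
    rw [neg_zero, zpow_zero, one_mul] at h3
    have h4 := fixD h3
    exact le_antisymm ((wd_sgn h₁ h₂ hK' H H' z).2.mpr h4.ge)
      ((wd_sgn h₁ h₂ hK' H H' z).1.mpr h4.le)

end glue

/-- What a filling means for actions on linear orders. -/
theorem spec_of_fill24 {G : Type u} [Group G] {s : Bool} {m a : G} {S : Set G}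
    (h : Fill s m a S) : ∀ (Ω : Type u) [CompleteLinearOrder Ω] (ρ : G →* (Ω ≃o Ω)),
      FillSpec s (some 0) none (ρ m) (ρ a) (ρ '' S) := by
  refine Fill.rec (motive_1 := fun s m a S _ => ∀ (Ω : Type u) [CompleteLinearOrder Ω]
      (ρ : G →* (Ω ≃o Ω)), FillSpec s (some 0) none (ρ m) (ρ a) (ρ '' S))
    (motive_2 := fun {E} Γ L δ q p _ => Finite E → LowSpec Γ L δ q p) ?_ ?_ ?_ ?_ h
  · intro s m a d c hd hs h Ω _ ρ
    rw [Set.image_empty]
    refine solid_spec (d := d) (c := c) (by exact_mod_cast hd) ?_ ?_ ?_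
    · intro k' hk'
      obtain rfl := Option.some_injective _ hk'
      refine ⟨by rw [zero_mul]; exact Int.natCast_nonneg _, fun h1 h2 => ?_⟩
      have := hs h1
      omega
    · intro k' hk'
      exact absurd hk' (by simp)
    · rw [zpow_natCast, zpow_natCast, ← map_pow, ← map_pow, h]
  · intro s m a E _ Γ L δ P F hP hF q p q' p' h₁ h₂ P₁ Q₁ P₂ Q₂ hP₁ hQ₁ hP₂ hQ₂ hm ha ihF ih₁ ih₂
      Ω _ ρ
    rw [hm, ha]
    exact glue_spec s hP ihF (ih₁ inferInstance) (ih₂ inferInstance) ⟨hP₁, hQ₁⟩ ⟨hP₂, hQ₂⟩ Ω ρ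
  · intro E Γ L δ hl hb _
    exact low_zero hl hb
  · intro E Γ L δ q p hq hpq j n len w A hg ha ℓ R hℓ hr hn h1 hX h2 ih _
    exact low_short hq hpq n len w A hg ha ℓ R hℓ ih hn h1 hX h2

/-- What a lower bound for the slope means for actions on linear orders. -/
theorem spec_of_low24 {G : Type u} [Group G] {E : Type} [Finite E] {Γ : CMap E} {L : Lab G Γ}
    {δ : E} {q p : ℕ} (h : Low Γ L δ q p) : LowSpec Γ L δ q p := by
  cases h with
  | zero _ _ _ hl hb => exact low_zero hl hb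
  | short _ _ _ _ _ hq hpq n len w A hg ha ℓ R hℓ hr hn h1 hX h2 =>
    exact low_short hq hpq n len w A hg ha ℓ R hℓ (fun i t ht => spec_of_fill24 (hr i t ht)) hn
      h1 hX h2

end Pool.Agent.Helper24.T8
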